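import Pool.Agent.MWH.StmtsB
import Pool.Agent.MWS.StmtsA

/-!
# Block MWH, row TDI: the lattice above the system h3 is distributive
-/

set_option autoImplicit false

namespace Pool.Agent.MWH.H7

open Pool.Agent.Helper14_MV Pool.Agent.Helper2_MV Pool.Agent.MVO Pool.Agent.MWL Pool.Agent.MWS
  Pool.Agent.MWH

/-- **TDI**. -/
theorem tdi (tlm : Pool.Agent.MWS.TlmStmt) (swh : SwhStmt) (tep : TepStmt) : TdiStmt :=
  fun β h => tlm β h.toBaseH.toBaseR h.toBaseH.itr (swh β h.toBaseH) (tep β h)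

end Pool.Agent.MWH.H7
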