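import Pool.Agent.Helper60_MWH.OKW

/-!
# Block MWH, row PSR: push; letters `1` may come from the right into the common block
-/

set_option autoImplicit false

namespace Pool.Agent.MWH.H7

open Pool.Agent.Helper14_MV Pool.Agent.Helper2_MV Pool.Agent.MVO Pool.Agent.MWL Pool.Agent.MWS
  Pool.Agent.MWH Pool.Agent.MWH.H60

theorem deg_psh' {k k' : ℕ} {g a : ℕ → ℕ} (hg : ∀ i ≤ k, g i ≤ k') :
    deg k' (psh k g a) = deg k a := by
  unfold deg psh
  rw [Finset.sum_comm]
  refine Finset.sum_congr rfl fun i hi => ?_
  rw [Finset.sum_ite_eq, if_pos]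
  rw [Finset.mem_range] at hi ⊢
  exact Nat.lt_succ_of_le (hg i (Nat.lt_succ_iff.1 hi))

theorem count_pshB' (k : ℕ) (f : ℕ → ℕ) (B : ℕ → List ℕ) (j c : ℕ) :
    (pshB k f B j).count c = psh k f (fun i => (B i).count c) j := by
  induction k with
  | zero =>
    rw [pshB_zero]
    unfold psh
    by_cases h : f 0 = j
    · simp [h]
    · simp [h]
  | succ k ih =>
    rw [pshB_succ, List.count_append, ih]
    unfold psh
    rw [Finset.sum_range_succ _ (k + 1)]
    by_cases h : f (k + 1) = j
    · rw [if_pos h, if_pos h]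
    · rw [if_neg h, if_neg h]
      simp

/-- `1` or many: the count after filling up -/
theorem dm_shape {k k' : ℕ} {f a a' : ℕ → ℕ} (h : Dm k k' f a a') {j' : ℕ} (hj : j' ≤ k') :
    psh k f a j' + (a' j' - psh k f a j') = a' j' ∨
      (2 ≤ psh k f a j' + (a' j' - psh k f a j') ∧ 2 ≤ a' j') := by
  rcases h j' hj with h | ⟨h1, j0, h2, h3⟩ | h
  · omega
  · have h4 : psh k f a j' ≤ 1 := by
      have h5 : psh k f a j' ≤ ∑ j ∈ Finset.range (k + 1), if j = j0 then a j0 else 0 := by
        unfold psh
        apply Finset.sum_le_sum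
        intro j hj
        rw [Finset.mem_range] at hj
        by_cases hf : f j = j'
        · rw [if_pos hf]
          by_cases hj0 : j = j0
          · rw [if_pos hj0, hj0]
          · rw [if_neg hj0, h3 j (by omega) hf hj0]
        · rw [if_neg hf]
          exact Nat.zero_le _
      rw [Finset.sum_ite_eq'] at h5
      split_ifs at h5 <;> omega
    omega
  · have h4 : psh k f a j' = 0 := by
      unfold psh
      apply Finset.sum_eq_zero
      intro j hj
      rw [Finset.mem_range] at hj
      by_cases hf : f j = j'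
      · rw [if_pos hf, h j (by omega) hf]
      · rw [if_neg hf]
    omega

/-- the middle of a pushed block -/
theorem pshB_mid (f : ℕ → ℕ) (B : ℕ → List ℕ) (i : ℕ) : ∀ k, i ≤ k →
    ∃ L R : List ℕ, pshB k f B (f i) = L ++ B i ++ R ∧
      (∀ c ∈ L, ∃ j, j < i ∧ f j = f i ∧ c ∈ B j) ∧
      ∀ c ∈ R, ∃ j, i < j ∧ j ≤ k ∧ f j = f i ∧ c ∈ B j := by
  intro k hk
  induction k, hk using Nat.le_induction with
  | base =>
    rcases i with _ | i
    · refine ⟨[], [], ?_, by simp, by simp⟩
      rw [pshB_zero, if_pos rfl]
      simp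
    · refine ⟨pshB i f B (f (i + 1)), [], ?_, ?_, by simp⟩
      · rw [pshB_succ, if_pos rfl]
        simp
      · intro c hc
        obtain ⟨j, hj, h1, h2⟩ := mem_pshB.1 hc
        exact ⟨j, by omega, h1, h2⟩
  | succ k hk ih =>
    obtain ⟨L, R, h1, h2, h3⟩ := ih
    refine ⟨L, R ++ (if f (k + 1) = f i then B (k + 1) else []), ?_, h2, ?_⟩
    · rw [pshB_succ, h1]
      simp
    · intro c hc
      rcases List.mem_append.1 hc with hc | hc
      · obtain ⟨j, h4, h5, h6, h7⟩ := h3 c hc
        exact ⟨j, h4, by omega, h6, h7⟩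
      · by_cases hf : f (k + 1) = f i
        · rw [if_pos hf] at hc
          exact ⟨k + 1, by omega, le_refl _, hf, hc⟩
        · rw [if_neg hf] at hc
          exact absurd hc (by simp)

/-- the letters added in the other blocks -/
def Qx (k : ℕ) (f a b a' b' : ℕ → ℕ) (i : ℕ) : ℕ → List ℕ := fun j' =>
  if j' = f i then [] else
    List.replicate (a' j' - psh k f a j') 0 ++ List.replicate (b' j' - psh k f b j') 1

/-- general push -/
theorem push_gen (nfe : NfeStmt) (okw : OkwStmt) {β θ : FIC} (hβ : BaseH β) (hle : β ≤ θ)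
    {k k' : ℕ} {f a b a' b' : ℕ → ℕ} {i : ℕ} (hf : BMap k k' f) (hV : Vd k a b i)
    (hV' : Vd k' a' b' (f i)) (hDa : Dm k k' f a a') (hDb : Dm k k' f b b') {s s' : Stt}
    (hs : Vs a b i s) (hs' : Vs a b i s') (hsA : Vs a' b' (f i) s) (hsA' : Vs a' b' (f i) s')
    (ha : psh k f a (f i) = a' (f i) ∨ (2 ≤ psh k f a (f i) ∧ 2 ≤ a' (f i)))
    (hb : psh k f b (f i) = b' (f i) ∨ (2 ≤ psh k f b (f i) ∧ 2 ≤ b' (f i)))
    (hfact : ∀ t, t = s ∨ t = s' → (Bef (pshB k f (W a b i t) (f i)) 0 1 ↔ t = Stt.xy) ∧
      (Bef (pshB k f (W a b i t) (f i)) 1 0 ↔ t = Stt.yx))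
    (h : Tr θ k a b i s s') : Tr θ k' a' b' (f i) s s' := by
  have hmem : ∀ t, Vs a b i t → ∀ j, ∀ c ∈ pshB k f (W a b i t) j, c = 0 ∨ c = 1 := by
    intro t ht j c hc
    obtain ⟨j0, -, -, h2⟩ := mem_pshB.1 hc
    exact (okw k a b i t hV ht).2.2.2.1 j0 c h2
  have hblk : ∀ t, Vs a b i t → BlkOk k' (pshB k f (W a b i t)) := by
    intro t ht j _ c hc
    unfold NS
    rcases hmem t ht j c hc with rfl | rfl <;> omega
  have h1 := rr_push θ hf (okw k a b i s hV hs).1.ok (okw k a b i s' hV hs').1.ok h
  have h2 := rr_ins' θ (fun _ => []) (Qx k f a b a' b' i) (hblk s hs) (hblk s' hs') h1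
  -- the words are normalised
  have key : ∀ t, (t = s ∨ t = s') → Vs a b i t → Vs a' b' (f i) t →
      RR β (asm k' (fun j => [] ++ pshB k f (W a b i t) j ++ Qx k f a b a' b' i j))
        (asm k' (W a' b' (f i) t)) := by
    intro t htt ht htA
    obtain ⟨o1, o2, o3, o4, o5, o6⟩ := okw k a b i t hV ht
    obtain ⟨p1, p2, p3, p4, p5, p6⟩ := okw k' a' b' (f i) t hV' htA
    have c0 : ∀ j, (pshB k f (W a b i t) j).count 0 = psh k f a j := by
      intro j
      rw [count_pshB']
      have : (fun i_1 => (W a b i t i_1).count 0) = a := funext fun j => (o3 j).1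
      rw [this]
    have c1 : ∀ j, (pshB k f (W a b i t) j).count 1 = psh k f b j := by
      intro j
      rw [count_pshB']
      have : (fun i_1 => (W a b i t i_1).count 1) = b := funext fun j => (o3 j).2
      rw [this]
    have q0 : ∀ j, (Qx k f a b a' b' i j).count 0 =
        if j = f i then 0 else a' j - psh k f a j := by
      intro j
      unfold Qx
      split_ifs
      · rfl
      · simp [List.count_replicate]
    have q1 : ∀ j, (Qx k f a b a' b' i j).count 1 =
        if j = f i then 0 else b' j - psh k f b j := by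
      intro j
      unfold Qx
      split_ifs
      · rfl
      · simp [List.count_replicate]
    have qm : ∀ j, ∀ c ∈ Qx k f a b a' b' i j, c = 0 ∨ c = 1 := by
      intro j c hc
      unfold Qx at hc
      split_ifs at hc
      · exact absurd hc (by simp)
      · rcases List.mem_append.1 hc with hc | hc
        · exact Or.inl (List.eq_of_mem_replicate hc)
        · exact Or.inr (List.eq_of_mem_replicate hc)
    obtain ⟨V, hVdef⟩ : ∃ V : ℕ → List ℕ,
        V = fun j => [] ++ pshB k f (W a b i t) j ++ Qx k f a b a' b' i j := ⟨_, rfl⟩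
    rw [← hVdef]
    have v0 : ∀ j, (V j).count 0 = psh k f a j + if j = f i then 0 else a' j - psh k f a j := by
      intro j
      rw [hVdef]
      show (([] ++ pshB k f (W a b i t) j) ++ Qx k f a b a' b' i j).count 0 = _
      rw [List.nil_append, List.count_append, c0, q0]
    have v1 : ∀ j, (V j).count 1 = psh k f b j + if j = f i then 0 else b' j - psh k f b j := by
      intro j
      rw [hVdef]
      show (([] ++ pshB k f (W a b i t) j) ++ Qx k f a b a' b' i j).count 1 = _
      rw [List.nil_append, List.count_append, c1, q1]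
    have vm : ∀ j, ∀ c ∈ V j, c = 0 ∨ c = 1 := by
      intro j c hc
      rw [hVdef] at hc
      rcases List.mem_append.1 hc with hc | hc
      · rw [List.nil_append] at hc
        exact hmem t ht j c hc
      · exact qm j c hc
    have hOk : OkB k' V := by
      refine ⟨?_, ?_⟩
      · intro j _ c hc
        unfold NS
        rcases vm j c hc with rfl | rfl <;> omega
      · intro j _ c hc
        have hd : ∀ x y : ℕ → ℕ, 2 ≤ deg k' x → (∀ j, x j ≤ y j) → 2 ≤ deg k' y := by
          intro x y h3 h4
          refine h3.trans ?_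
          unfold deg
          exact Finset.sum_le_sum fun j _ => h4 j
        rcases vm j c hc with rfl | rfl
        · refine hd (psh k f a) _ ?_ ?_
          · rw [deg_psh' hf.le]
            exact hV.da
          · intro j
            rw [v0]
            omega
        · refine hd (psh k f b) _ ?_ ?_
          · rw [deg_psh' hf.le]
            exact hV.db
          · intro j
            rw [v1]
            omega
    -- the shapes
    have s0 : ∀ j ≤ k', (V j).count 0 = (W a' b' (f i) t j).count 0 ∨
        (2 ≤ (V j).count 0 ∧ 2 ≤ (W a' b' (f i) t j).count 0) := by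
      intro j hj
      rw [v0, (p3 j).1]
      by_cases hji : j = f i
      · rw [if_pos hji, hji]
        exact ha
      · rw [if_neg hji]
        exact dm_shape hDa hj
    have s1 : ∀ j ≤ k', (V j).count 1 = (W a' b' (f i) t j).count 1 ∨
        (2 ≤ (V j).count 1 ∧ 2 ≤ (W a' b' (f i) t j).count 1) := by
      intro j hj
      rw [v1, (p3 j).2]
      by_cases hji : j = f i
      · rw [if_pos hji, hji]
        exact hb
      · rw [if_neg hji]
        exact dm_shape hDb hj
    have hShp : Shp k' V (W a' b' (f i) t) := by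
      intro c _ j hj
      by_cases hc0 : c = 0
      · subst hc0
        exact s0 j hj
      · by_cases hc1 : c = 1
        · subst hc1
          exact s1 j hj
        · left
          have e1 : c ∉ V j := fun h => by
            rcases vm j c h with h | h
            · exact hc0 h
            · exact hc1 h
          have e2 : c ∉ W a' b' (f i) t j := fun h => by
            rcases p4 j c h with h | h
            · exact hc0 h
            · exact hc1 h
          show (V j).count c = (W a' b' (f i) t j).count c
          rw [List.count_eq_zero_of_not_mem e1, List.count_eq_zero_of_not_mem e2]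
    refine nfe β hβ k' V _ hOk p1 hShp ?_
    have hVi : V (f i) = pshB k f (W a b i t) (f i) := by
      rw [hVdef]
      show ([] ++ pshB k f (W a b i t) (f i)) ++ Qx k f a b a' b' i (f i) = _
      unfold Qx
      rw [if_pos rfl, List.nil_append, List.append_nil]
    -- the only common block is `f i`
    have honly : ∀ j ≤ k', 0 ∈ V j → 1 ∈ V j → j = f i := by
      intro j hj h0 h1
      by_contra hne
      have d0 := List.count_pos_iff.2 h0
      have d1 := List.count_pos_iff.2 h1
      rcases hV'.un j hj hne with h3 | h3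
      · rcases s0 j hj with h4 | h4
        · rw [(p3 j).1] at h4
          omega
        · rw [(p3 j).1] at h4
          omega
      · rcases s1 j hj with h4 | h4
        · rw [(p3 j).2] at h4
          omega
        · rw [(p3 j).2] at h4
          omega
    have hft := hfact t htt
    intro j hj x y hxy hx hy _
    rcases vm j x hx with rfl | rfl
    · rcases vm j y hy with rfl | rfl
      · exact absurd rfl hxy
      · have := honly j hj hx hy
        subst this
        rw [hVi]
        exact hft.1.trans p5.symm
    · rcases vm j y hy with rfl | rfl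
      · have := honly j hj hy hx
        subst this
        rw [hVi]
        exact hft.2.trans p6.symm
      · exact absurd rfl hxy
  have k1 := hle _ _ (key s (Or.inl rfl) hs hsA)
  have k2 := hle _ _ (key s' (Or.inr rfl) hs' hsA')
  exact θ.trans (θ.symm k1) (θ.trans h2 k2)

theorem pair_app {x y : ℕ} {A B : List ℕ} :
    List.Sublist [x, y] (A ++ B) ↔ List.Sublist [x, y] A ∨ (x ∈ A ∧ y ∈ B) ∨
      List.Sublist [x, y] B := by
  rw [List.sublist_append_iff]
  constructor
  · rintro ⟨l1, l2, h, h1, h2⟩
    rcases l1 with _ | ⟨a, l1⟩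
    · rw [List.nil_append] at h
      subst h
      exact Or.inr (Or.inr h2)
    · rcases l1 with _ | ⟨b, l1⟩
      · simp only [List.cons_append, List.nil_append, List.cons.injEq] at h
        obtain ⟨rfl, rfl⟩ := h
        exact Or.inr (Or.inl ⟨List.singleton_sublist.1 h1, List.singleton_sublist.1 h2⟩)
      · simp only [List.cons_append, List.cons.injEq] at h
        obtain ⟨rfl, rfl, h⟩ := h
        have h3 := List.append_eq_nil_iff.1 h.symm
        obtain ⟨rfl, rfl⟩ := h3
        exact Or.inl h1
  · rintro (h | ⟨h1, h2⟩ | h)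
    · exact ⟨[x, y], [], by simp, h, List.nil_sublist _⟩
    · exact ⟨[x], [y], rfl, List.singleton_sublist.2 h1, List.singleton_sublist.2 h2⟩
    · exact ⟨[], [x, y], rfl, List.nil_sublist _, h⟩

theorem W_empty {a b : ℕ → ℕ} {i j : ℕ} {s : Stt} (hj : j ≠ i) (ha : a j = 0) (hb : b j = 0) :
    W a b i s j = [] := by
  unfold W
  rw [if_neg hj, ha, hb]
  rfl

theorem W_ones {a b : ℕ → ℕ} {i j : ℕ} {s : Stt} (hj : j ≠ i) (ha : a j = 0) {c : ℕ}
    (hc : c ∈ W a b i s j) : c = 1 := by
  unfold W at hc
  rw [if_neg hj, ha, List.replicate_zero, List.nil_append] at hc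
  exact List.eq_of_mem_replicate hc

/-- only the block `i` contributes to the count -/
theorem psh_only {k : ℕ} {f a : ℕ → ℕ} {i : ℕ} (hi : i ≤ k)
    (h : ∀ j ≤ k, f j = f i → j ≠ i → a j = 0) : psh k f a (f i) = a i := by
  unfold psh
  rw [Finset.sum_eq_single i]
  · rw [if_pos rfl]
  · intro j hj hji
    rw [Finset.mem_range] at hj
    by_cases hf : f j = f i
    · rw [if_pos hf]
      exact h j (by omega) hf hji
    · rw [if_neg hf]
  · intro hn
    exact absurd (Finset.mem_range.2 (by omega)) hn

theorem psh_ge {k : ℕ} {f a : ℕ → ℕ} {i : ℕ} (hi : i ≤ k) : a i ≤ psh k f a (f i) := by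
  unfold psh
  have h := Finset.single_le_sum (f := fun j => if f j = f i then a j else 0)
    (fun j _ => Nat.zero_le _) (Finset.mem_range.2 (by omega : i < k + 1))
  simpa using h

/-- **PSR**. -/
theorem psr (nfe : NfeStmt) (okw : OkwStmt) : PsrStmt := by
  intro β θ hβ hle k k' f a b a' b' i hf hV hV' hDa hDb hfi hai hbi hb'i h
  have hsx : Vs a b i Stt.xy := fun h => by cases h
  have hso : Vs a b i Stt.ov := fun _ => Or.inr hbi
  have hsx' : Vs a' b' (f i) Stt.xy := fun h => by cases h
  have hso' : Vs a' b' (f i) Stt.ov := fun _ => Or.inr hb'i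
  refine push_gen nfe okw hβ hle hf hV hV' hDa hDb hsx hso hsx' hso' ?_ ?_ ?_ h
  · rw [psh_only hV.ik fun j hj h1 h2 => (hfi j hj h1 h2).1]
    have h1 := hV.ai
    have h2 := hV'.ai
    omega
  · have h1 := psh_ge (f := f) (a := b) hV.ik
    exact Or.inr ⟨by omega, hb'i⟩
  · intro t ht
    have htv : Vs a b i t := by
      rcases ht with rfl | rfl
      · exact hsx
      · exact hso
    obtain ⟨o1, o2, o3, o4, o5, o6⟩ := okw k a b i t hV htv
    obtain ⟨L, R, e, hL, hR⟩ := pshB_mid f (W a b i t) i k hV.ik
    have hL0 : L = [] := by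
      rw [List.eq_nil_iff_forall_not_mem]
      intro c hc
      obtain ⟨j, h1, h2, h3⟩ := hL c hc
      obtain ⟨h4, h5⟩ := hfi j (by have := hV.ik; omega) h2 (by omega)
      have h6 : b j = 0 := by
        rcases h5 with h5 | h5
        · omega
        · exact h5
      rw [W_empty (by omega) h4 h6] at h3
      exact absurd h3 (by simp)
    have hR1 : ∀ c ∈ R, c = 1 := by
      intro c hc
      obtain ⟨j, h1, h2, h3, h4⟩ := hR c hc
      exact W_ones (by omega) (hfi j h2 h3 (by omega)).1 h4
    have hR0 : (0 : ℕ) ∉ R := fun h => absurd (hR1 0 h) (by decide)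
    rw [hL0, List.nil_append] at e
    rw [e]
    constructor
    · rw [← o5, bef_iff, bef_iff, pair_app]
      constructor
      · intro h1 h2
        exact h1 (Or.inl h2)
      · rintro h1 (h2 | ⟨-, h2⟩ | h2)
        · exact h1 h2
        · exact hR0 h2
        · exact hR0 (h2.subset (by simp))
    · rw [← o6, bef_iff, bef_iff, pair_app]
      have h1 : List.Sublist [0, 1] (W a b i t i) := by
        by_contra hc
        have h2 := o6.1 ((bef_iff _ _ _).2 hc)
        rcases ht with rfl | rfl <;> cases h2
      exact ⟨fun h2 => absurd (Or.inl h1) h2, fun h2 => absurd h1 h2⟩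

end Pool.Agent.MWH.H7
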